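import Pool.Agent.W5h40.RS.Net
import Pool.Agent.W5h40.RS.Main

/-!
# The rigid synchrony conjecture (MP_e1010f_an)

For every network, every admissible `C^1` vector field and every hyperbolic periodic orbit, a
rigid synchrony pattern is balanced.

Sketch. Only simplicity of the Floquet multiplier one is used. The periodic orbit persists for
all `C^1`-close admissible fields, and the displacement of the orbit caused by a perturbation
`p` is bounded by a constant times the integral of `‖p‖` along the orbit. Choose a nearby
admissible field `g` and a time `t` at which the number of coincidences of node states plus the
number of vanishing node velocities is minimal; both relations are then locally constant in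
`(g, t)`. At a node whose inputs move, a bump of height `ε w` and width `w` in input space
displaces the orbit only by `o(ε w)`, and comparing velocities gives the balance condition; at
nodes with stationary inputs one uses a linearization and a dimension count. The coincidence
relation is thus balanced, hence flow-invariant, hence equal to the synchrony pattern of the
orbit of `g`, which is that of the original orbit by rigidity.
-/

namespace Pool.Agent.Results.MP_e1010f_an.RigidSynchrony

open Pool.Agent.W5h40.RS

theorem result (N : Network) (f : N.Phase → N.Phase) (hf : N.Admissible f)
    (x : ℝ → N.Phase) (T : ℝ) (hx : PeriodicOrbit f x T) (hyp : HyperbolicMultipliers f x T)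
    (hrig : N.Rigid f x T) : N.Balanced (N.Synchronous x) :=
  Network.rigid_synchrony N f hf x T hx hyp hrig

end Pool.Agent.Results.MP_e1010f_an.RigidSynchrony
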